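import Pool.Agent.helper92.VC.Spec

/-!
# Row vc:CST: straight-line complexity of sums of read-once oblivious branching programs
-/

set_option autoImplicit false

universe u

namespace Pool.Agent.helper92.VC

open MvPolynomial

section ext

variable {σ : Type} {k : Type u} [CommRing k]

theorem CST_mono {l : List (MvPolynomial σ k)} {a : MvPolynomial σ k} (l' : List (MvPolynomial σ k))
    (h : Avail l a) : Avail (l' ++ l) a := by
  rcases h with h | h | h
  · exact Or.inl h
  · exact Or.inr (Or.inl h)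
  · exact Or.inr (Or.inr (List.mem_append_right _ h))

/-- From the elements of `S` one can compute the elements of `T` with `r` operations. -/
def CST_E (S T : Set (MvPolynomial σ k)) (r : ℕ) : Prop :=
  ∀ l : List (MvPolynomial σ k), SLP l → (∀ s ∈ S, Avail l s) →
    ∃ l', SLP (l' ++ l) ∧ l'.length ≤ r ∧ ∀ t ∈ T, Avail (l' ++ l) t

theorem CST_E_mono {S S' T T' : Set (MvPolynomial σ k)} {r r' : ℕ} (h : CST_E S T r)
    (hS : S ⊆ S') (hT : T' ⊆ T) (hr : r ≤ r') : CST_E S' T' r' := by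
  intro l hl hs
  obtain ⟨l', h1, h2, h3⟩ := h l hl fun s hs' => hs s (hS hs')
  exact ⟨l', h1, h2.trans hr, fun t ht => h3 t (hT ht)⟩

theorem CST_E_trans {S T U : Set (MvPolynomial σ k)} {r r' : ℕ} (h : CST_E S T r)
    (h' : CST_E (S ∪ T) U r') : CST_E S (T ∪ U) (r + r') := by
  intro l hl hs
  obtain ⟨l1, h1, h2, h3⟩ := h l hl hs
  obtain ⟨l2, h4, h5, h6⟩ := h' (l1 ++ l) h1 (by
    rintro s (hs' | hs')
    · exact CST_mono l1 (hs s hs')
    · exact h3 s hs')
  refine ⟨l2 ++ l1, by rwa [List.append_assoc], by rw [List.length_append]; omega, ?_⟩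
  rintro t (ht | ht)
  · rw [List.append_assoc]
    exact CST_mono l2 (h3 t ht)
  · rw [List.append_assoc]
    exact h6 t ht

theorem CST_E_union {S T U : Set (MvPolynomial σ k)} {r r' : ℕ} (h : CST_E S T r)
    (h' : CST_E S U r') : CST_E S (T ∪ U) (r + r') :=
  CST_E_trans h (CST_E_mono h' Set.subset_union_left subset_rfl le_rfl)

theorem CST_E_empty (S : Set (MvPolynomial σ k)) : CST_E S ∅ 0 := fun _ hl _ =>
  ⟨[], hl, le_rfl, fun t ht => absurd ht (Set.notMem_empty t)⟩

theorem CST_E_self {S : Set (MvPolynomial σ k)} {a : MvPolynomial σ k} (h : a ∈ S) :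
    CST_E S {a} 0 := fun l hl hs => ⟨[], hl, le_rfl, by
      intro t ht
      rw [Set.mem_singleton_iff.1 ht]
      exact hs a h⟩

theorem CST_E_C (S : Set (MvPolynomial σ k)) (c : k) : CST_E S {C c} 0 := fun l hl _ =>
  ⟨[], hl, le_rfl, by
    intro t ht
    rw [Set.mem_singleton_iff.1 ht]
    exact Or.inr (Or.inl ⟨c, rfl⟩)⟩

theorem CST_E_X (S : Set (MvPolynomial σ k)) (i : σ) : CST_E S {X i} 0 := fun l hl _ =>
  ⟨[], hl, le_rfl, by
    intro t ht
    rw [Set.mem_singleton_iff.1 ht]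
    exact Or.inl ⟨i, rfl⟩⟩

theorem CST_E_add {S : Set (MvPolynomial σ k)} {a b : MvPolynomial σ k} {r r' : ℕ}
    (h : CST_E S {a} r) (h' : CST_E S {b} r') : CST_E S {a + b} (r + r' + 1) := by
  intro l hl hs
  obtain ⟨l1, h1, h2, h3⟩ := CST_E_union h h' l hl hs
  refine ⟨(a + b) :: l1, SLP.add _ _ _ h1 (h3 a (Or.inl rfl)) (h3 b (Or.inr rfl)), ?_, ?_⟩
  · rw [List.length_cons]; omega
  · intro t ht
    rw [Set.mem_singleton_iff.1 ht]
    exact Or.inr (Or.inr (by simp))

theorem CST_E_mul {S : Set (MvPolynomial σ k)} {a b : MvPolynomial σ k} {r r' : ℕ}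
    (h : CST_E S {a} r) (h' : CST_E S {b} r') : CST_E S {a * b} (r + r' + 1) := by
  intro l hl hs
  obtain ⟨l1, h1, h2, h3⟩ := CST_E_union h h' l hl hs
  refine ⟨(a * b) :: l1, SLP.mul _ _ _ h1 (h3 a (Or.inl rfl)) (h3 b (Or.inr rfl)), ?_, ?_⟩
  · rw [List.length_cons]; omega
  · intro t ht
    rw [Set.mem_singleton_iff.1 ht]
    exact Or.inr (Or.inr (by simp))

theorem CST_E_iUnion {S : Set (MvPolynomial σ k)} {ι : Type} (m : Finset ι)
    (T : ι → Set (MvPolynomial σ k)) (r : ℕ) (h : ∀ i ∈ m, CST_E S (T i) r) :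
    CST_E S (⋃ i ∈ m, T i) (m.card * r) := by
  classical
  induction m using Finset.induction_on with
  | empty => simpa using CST_E_empty S
  | insert a s ha ih =>
    have h1 := CST_E_union (h a (Finset.mem_insert_self a s))
      (ih fun i hi => h i (Finset.mem_insert_of_mem hi))
    refine CST_E_mono h1 subset_rfl ?_ ?_
    · intro t ht
      simp only [Set.mem_iUnion] at ht
      obtain ⟨i, hi, ht⟩ := ht
      rcases Finset.mem_insert.1 hi with rfl | hi
      · exact Or.inl ht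
      · exact Or.inr (Set.mem_iUnion₂.2 ⟨i, hi, ht⟩)
    · rw [Finset.card_insert_of_notMem ha, Nat.succ_mul]
      omega

theorem CST_E_sum {S : Set (MvPolynomial σ k)} {ι : Type} (m : Finset ι)
    (g : ι → MvPolynomial σ k) (r : ℕ) (h : ∀ i ∈ m, CST_E S {g i} r) :
    CST_E S {∑ i ∈ m, g i} (m.card * (r + 1)) := by
  classical
  induction m using Finset.induction_on with
  | empty =>
    have h1 := CST_E_C S (0 : k)
    rw [C_0] at h1
    simpa using h1
  | insert a s ha ih =>
    have h1 := CST_E_add (h a (Finset.mem_insert_self a s))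
      (ih fun i hi => h i (Finset.mem_insert_of_mem hi))
    rw [Finset.sum_insert ha]
    refine CST_E_mono h1 subset_rfl subset_rfl ?_
    rw [Finset.card_insert_of_notMem ha, Nat.succ_mul]
    omega

/-- powers -/
theorem CST_E_pow (S : Set (MvPolynomial σ k)) (i : σ) (d : ℕ) :
    CST_E S {a | ∃ j ≤ d, a = X i ^ j} d := by
  induction d with
  | zero =>
    refine CST_E_mono (CST_E_C S 1) subset_rfl ?_ le_rfl
    rintro a ⟨j, hj, rfl⟩
    rw [Nat.le_zero.1 hj, pow_zero, C_1]
    exact rfl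
  | succ d ih =>
    have h1 : CST_E (S ∪ {a | ∃ j ≤ d, a = X i ^ j}) {(X i : MvPolynomial σ k) ^ d * X i} (0 + 0 + 1) :=
      CST_E_mul (CST_E_self (Or.inr ⟨d, le_rfl, rfl⟩)) (CST_E_X _ i)
    refine CST_E_mono (CST_E_trans ih h1) subset_rfl ?_ (by omega)
    rintro a ⟨j, hj, rfl⟩
    rcases Nat.lt_or_ge d j with h2 | h2
    · refine Or.inr ?_
      have h3 : j = d + 1 := by omega
      rw [h3, pow_succ]
      exact rfl
    · exact Or.inl ⟨j, h2, rfl⟩

end ext

section roabp

variable {n : ℕ} {k : Type u} [Field k]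

/-- truncation -/
noncomputable def CST_tr (d : ℕ) (p : Polynomial k) : Polynomial k :=
  ∑ j ∈ Finset.range (d + 1), Polynomial.C (p.coeff j) * Polynomial.X ^ j

theorem CST_tr_coeff (d : ℕ) (p : Polynomial k) (m : ℕ) :
    (CST_tr d p).coeff m = if m ≤ d then p.coeff m else 0 := by
  rw [CST_tr, Polynomial.finsetSum_coeff]
  simp only [Polynomial.coeff_C_mul, Polynomial.coeff_X_pow, mul_ite, mul_one, mul_zero]
  rw [Finset.sum_ite_eq]
  simp

theorem CST_entry (d : ℕ) (p : Polynomial k) (x : Fin n) :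
    CST_E {a : MvPolynomial (Fin n) k | ∃ j ≤ d, a = X x ^ j}
      {Polynomial.aeval (X x : MvPolynomial (Fin n) k) (CST_tr d p)} ((d + 1) * 2) := by
  have h1 : Polynomial.aeval (X x : MvPolynomial (Fin n) k) (CST_tr d p) =
      ∑ j ∈ Finset.range (d + 1), C (p.coeff j) * X x ^ j := by
    rw [CST_tr, map_sum]
    refine Finset.sum_congr rfl fun j _ => ?_
    rw [map_mul, map_pow, Polynomial.aeval_X, Polynomial.aeval_C]
    rfl
  rw [h1]
  have h2 := CST_E_sum (S := {a : MvPolynomial (Fin n) k | ∃ j ≤ d, a = X x ^ j})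
    (Finset.range (d + 1)) (fun j => C (p.coeff j) * X x ^ j) 1 fun j hj =>
      CST_E_mono (CST_E_mul (CST_E_C _ (p.coeff j))
        (CST_E_self (S := {a : MvPolynomial (Fin n) k | ∃ j ≤ d, a = X x ^ j}) ⟨j, by
          rw [Finset.mem_range] at hj; omega, rfl⟩)) subset_rfl subset_rfl (by omega)
  rwa [Finset.card_range] at h2

/-- the product of the matrices, applied to a vector -/
noncomputable def CST_vec {w : ℕ} (M : Fin n → Matrix (Fin w) (Fin w) (Polynomial k))
    (l : List (Fin n)) (v : Fin w → k) : Fin w → MvPolynomial (Fin n) k :=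
  Matrix.mulVec (l.map fun x => (M x).map fun p =>
    Polynomial.aeval (X x : MvPolynomial (Fin n) k) p).prod (fun s => C (v s))

theorem CST_step {w : ℕ} (d : ℕ) (M : Fin n → Matrix (Fin w) (Fin w) (Polynomial k))
    (x : Fin n) (g : Fin w → MvPolynomial (Fin n) k) :
    CST_E (Set.range g) (Set.range (Matrix.mulVec ((M x).map fun p =>
      Polynomial.aeval (X x : MvPolynomial (Fin n) k) (CST_tr d p)) g))
      (d + (w * w * ((d + 1) * 2) + w * (w * 2))) := by
  have h1 : CST_E (Set.range g) {a | ∃ j ≤ d, a = X x ^ j} d := CST_E_pow _ x d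
  have h2 : CST_E (Set.range g ∪ {a | ∃ j ≤ d, a = X x ^ j})
      (⋃ i ∈ (Finset.univ : Finset (Fin w × Fin w)),
        {Polynomial.aeval (X x : MvPolynomial (Fin n) k) (CST_tr d (M x i.1 i.2))})
      (w * w * ((d + 1) * 2)) := by
    have h3 := CST_E_iUnion (S := Set.range g ∪ {a | ∃ j ≤ d, a = X x ^ j})
      (Finset.univ : Finset (Fin w × Fin w))
      (fun i => {Polynomial.aeval (X x : MvPolynomial (Fin n) k) (CST_tr d (M x i.1 i.2))})
      ((d + 1) * 2) fun i _ => CST_E_mono (CST_entry d (M x i.1 i.2) x)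
        Set.subset_union_right subset_rfl le_rfl
    rwa [Finset.card_univ, Fintype.card_prod, Fintype.card_fin] at h3
  have h3 := CST_E_trans h1 h2
  obtain ⟨T, hT⟩ : ∃ T : Set (MvPolynomial (Fin n) k), T = {a | ∃ j ≤ d, a = X x ^ j} ∪
      (⋃ i ∈ (Finset.univ : Finset (Fin w × Fin w)),
        {Polynomial.aeval (X x : MvPolynomial (Fin n) k) (CST_tr d (M x i.1 i.2))}) := ⟨_, rfl⟩
  rw [← hT] at h3
  have h4 : ∀ a b : Fin w, Polynomial.aeval (X x : MvPolynomial (Fin n) k) (CST_tr d (M x a b)) ∈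
      Set.range g ∪ T := by
    intro a b
    rw [hT]
    exact Or.inr (Or.inr (Set.mem_iUnion₂.2 ⟨(a, b), Finset.mem_univ _, rfl⟩))
  have h5 : ∀ a : Fin w, CST_E (Set.range g ∪ T) {Matrix.mulVec ((M x).map fun p =>
      Polynomial.aeval (X x : MvPolynomial (Fin n) k) (CST_tr d p)) g a} (w * 2) := by
    intro a
    have h6 := CST_E_sum (S := Set.range g ∪ T) (Finset.univ : Finset (Fin w))
      (fun b => Polynomial.aeval (X x : MvPolynomial (Fin n) k) (CST_tr d (M x a b)) * g b) 1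
      fun b _ => CST_E_mono (CST_E_mul (CST_E_self (h4 a b)) (CST_E_self (Or.inl ⟨b, rfl⟩)))
        subset_rfl subset_rfl (by omega)
    rw [Finset.card_univ, Fintype.card_fin] at h6
    exact h6
  have h6 := CST_E_iUnion (S := Set.range g ∪ T) (Finset.univ : Finset (Fin w))
    (fun a => {Matrix.mulVec ((M x).map fun p =>
      Polynomial.aeval (X x : MvPolynomial (Fin n) k) (CST_tr d p)) g a}) (w * 2) fun a _ => h5 a
  rw [Finset.card_univ, Fintype.card_fin] at h6
  refine CST_E_mono (CST_E_trans h3 h6) subset_rfl ?_ (by omega)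
  rintro t ⟨a, rfl⟩
  exact Or.inr (Set.mem_iUnion₂.2 ⟨a, Finset.mem_univ _, rfl⟩)

theorem CST_vec_E {w : ℕ} (d : ℕ) (M : Fin n → Matrix (Fin w) (Fin w) (Polynomial k))
    (v : Fin w → k) (l : List (Fin n)) :
    CST_E ∅ (Set.range (CST_vec (fun x => (M x).map (CST_tr d)) l v))
      (l.length * (d + (w * w * ((d + 1) * 2) + w * (w * 2)))) := by
  induction l with
  | nil =>
    have h1 := CST_E_iUnion (S := (∅ : Set (MvPolynomial (Fin n) k))) (Finset.univ : Finset (Fin w))
      (fun a => {C (v a)}) 0 fun a _ => CST_E_C _ _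
    refine CST_E_mono h1 subset_rfl ?_ (by simp)
    rintro t ⟨a, rfl⟩
    refine Set.mem_iUnion₂.2 ⟨a, Finset.mem_univ _, ?_⟩
    simp [CST_vec]
  | cons x s ih =>
    have h1 : CST_vec (fun x => (M x).map (CST_tr d)) (x :: s) v =
        Matrix.mulVec ((M x).map fun p =>
          Polynomial.aeval (X x : MvPolynomial (Fin n) k) (CST_tr d p))
          (CST_vec (fun x => (M x).map (CST_tr d)) s v) := by
      rw [CST_vec, CST_vec, List.map_cons, List.prod_cons, ← Matrix.mulVec_mulVec]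
      rfl
    rw [h1]
    have h2 := CST_step d M x (CST_vec (fun x => (M x).map (CST_tr d)) s v)
    refine CST_E_mono (CST_E_trans ih (CST_E_mono h2 Set.subset_union_right subset_rfl le_rfl))
      subset_rfl Set.subset_union_right ?_
    exact le_of_eq (Nat.succ_mul _ _).symm

theorem CST_one {w : ℕ} (d : ℕ) (M : Fin n → Matrix (Fin w) (Fin w) (Polynomial k))
    (u v : Fin w → k) (l : List (Fin n)) :
    CST_E ∅ {(fun s => C (u s)) ⬝ᵥ CST_vec (fun x => (M x).map (CST_tr d)) l v}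
      (l.length * (d + (w * w * ((d + 1) * 2) + w * (w * 2))) + w * 2) := by
  have h1 := CST_E_sum (S := ∅ ∪ Set.range (CST_vec (fun x => (M x).map (CST_tr d)) l v))
    (Finset.univ : Finset (Fin w))
    (fun s => C (u s) * CST_vec (fun x => (M x).map (CST_tr d)) l v s) 1 fun s _ =>
      CST_E_mono (CST_E_mul (CST_E_C _ (u s)) (CST_E_self (Or.inr ⟨s, rfl⟩)))
        subset_rfl subset_rfl (by omega)
  rw [Finset.card_univ, Fintype.card_fin] at h1
  exact CST_E_mono (CST_E_trans (CST_vec_E d M v l) h1) subset_rfl Set.subset_union_right le_rfl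

/-- the coefficients of a branching program -/
theorem CST_coeff (hCOE : COE_stmt.{u}) {w : ℕ} (M : Fin n → Matrix (Fin w) (Fin w) (Polynomial k))
    (u v : Fin w → k) (l : List (Fin n)) (hl : l.Nodup) (hl' : ∀ y, y ∈ l) (e : Fin n →₀ ℕ) :
    MvPolynomial.coeff e ((fun s => C (u s)) ⬝ᵥ CST_vec M l v) =
      ∑ s, u s * ∑ t, (l.map fun x => (M x).map fun p => p.coeff (e x)).prod s t * v t := by
  rw [dotProduct, MvPolynomial.coeff_sum]
  refine Finset.sum_congr rfl fun s _ => ?_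
  rw [MvPolynomial.coeff_C_mul, CST_vec, Matrix.mulVec, dotProduct, MvPolynomial.coeff_sum]
  refine congrArg (fun z => u s * z) (Finset.sum_congr rfl fun t _ => ?_)
  rw [mul_comm, MvPolynomial.coeff_C_mul, hCOE n k w M l hl s t e,
    if_pos fun y hy => absurd (hl' y) hy, mul_comm]

theorem CST_trunc (hCOE : COE_stmt.{u}) {w : ℕ} (d : ℕ)
    (M : Fin n → Matrix (Fin w) (Fin w) (Polynomial k))
    (u v : Fin w → k) (l : List (Fin n)) (hl : l.Nodup) (hl' : ∀ y, y ∈ l) (e : Fin n →₀ ℕ) :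
    MvPolynomial.coeff e ((fun s => C (u s)) ⬝ᵥ CST_vec (fun x => (M x).map (CST_tr d)) l v) =
      if ∀ y, e y ≤ d then MvPolynomial.coeff e ((fun s => C (u s)) ⬝ᵥ CST_vec M l v) else 0 := by
  rw [CST_coeff hCOE _ u v l hl hl', CST_coeff hCOE _ u v l hl hl']
  split_ifs with h
  · have h1 : (fun x => ((M x).map (CST_tr d)).map fun p => p.coeff (e x)) =
        fun x => (M x).map fun p => p.coeff (e x) := by
      funext x
      ext a b
      simp only [Matrix.map_apply, CST_tr_coeff, h x, if_true]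
    rw [h1]
  · push Not at h
    obtain ⟨y, hy⟩ := h
    have h1 : (l.map fun x => ((M x).map (CST_tr d)).map fun p => p.coeff (e x)).prod = 0 := by
      refine List.prod_eq_zero (List.mem_map.2 ⟨y, hl' y, ?_⟩)
      ext a b
      simp only [Matrix.map_apply, CST_tr_coeff, not_le.2 hy, if_false, Matrix.zero_apply]
    simp only [h1, Matrix.zero_apply, zero_mul, Finset.sum_const_zero, mul_zero]

/-- the program in terms of the list of the variables -/
theorem CST_form {w : ℕ} {A : MvPolynomial (Fin n) k} (h : IsROABP w A) :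
    ∃ (l : List (Fin n)) (M : Fin n → Matrix (Fin w) (Fin w) (Polynomial k)) (u v : Fin w → k),
      l.Nodup ∧ (∀ y, y ∈ l) ∧ l.length = n ∧ A = (fun s => C (u s)) ⬝ᵥ CST_vec M l v := by
  obtain ⟨τ, M, u, v, hA⟩ := h
  refine ⟨List.ofFn τ, fun x => M (τ.symm x), u, v, List.nodup_ofFn.2 τ.injective,
    fun y => (List.mem_ofFn' _ _).2 ⟨τ.symm y, by simp⟩, List.length_ofFn, ?_⟩
  rw [hA, CST_vec, List.map_ofFn]
  have h1 : (fun i : Fin n => (M i).map fun p =>
        Polynomial.aeval (X (τ i) : MvPolynomial (Fin n) k) p) =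
      (fun x => (M (τ.symm x)).map fun p =>
        Polynomial.aeval (X x : MvPolynomial (Fin n) k) p) ∘ τ := by
    funext i
    simp
  rw [h1]

end roabp

/-- Row vc:CST. -/
theorem CST (hCOE : COE_stmt.{u}) : CST_stmt.{u} := by
  intro n N w d k _ f hf hd
  obtain ⟨B, hB, hfB⟩ := hf
  have h1 : ∀ i, ∃ B' : MvPolynomial (Fin n) k,
      CST_E ∅ {B'} (n * (d + (w * w * ((d + 1) * 2) + w * (w * 2))) + w * 2) ∧
      ∀ e : Fin n →₀ ℕ, MvPolynomial.coeff e B' =
        if ∀ y, e y ≤ d then MvPolynomial.coeff e (B i) else 0 := by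
    intro i
    obtain ⟨l, M, u, v, hl, hl', hn, hA⟩ := CST_form (hB i)
    refine ⟨(fun s => C (u s)) ⬝ᵥ CST_vec (fun x => (M x).map (CST_tr d)) l v, ?_, fun e => ?_⟩
    · have h2 := CST_one d M u v l
      rwa [hn] at h2
    · rw [hA]
      exact CST_trunc hCOE d M u v l hl hl' e
  choose B' hB1 hB2 using h1
  have h2 : f = ∑ i, B' i := by
    ext e
    rw [MvPolynomial.coeff_sum, Finset.sum_congr rfl fun i _ => hB2 i e]
    by_cases h3 : ∀ y, e y ≤ d
    · rw [Finset.sum_congr rfl fun i _ => if_pos h3, hfB, MvPolynomial.coeff_sum]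
    · rw [Finset.sum_congr rfl fun i _ => if_neg h3, Finset.sum_const_zero]
      by_contra h4
      apply h3
      intro y
      exact (MvPolynomial.monomial_le_degreeOf y (MvPolynomial.mem_support_iff.2 h4)).trans (hd y)
  have h3 := CST_E_sum (S := (∅ : Set (MvPolynomial (Fin n) k))) (Finset.univ : Finset (Fin N)) B'
    (n * (d + (w * w * ((d + 1) * 2) + w * (w * 2))) + w * 2) fun i _ => hB1 i
  rw [← h2, Finset.card_univ, Fintype.card_fin] at h3
  obtain ⟨l, h4, h5, h6⟩ := h3 [] SLP.nil fun s hs => absurd hs (Set.notMem_empty s)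
  rw [List.append_nil] at h4 h6
  refine ⟨l, h4, h5.trans (Nat.mul_le_mul_left N (Nat.add_le_add_right ?_ 1)), h6 f rfl⟩
  have a1 : n * d ≤ (n + 1) * (d + 1) * (w + 1) ^ 2 := by
    have h7 : 1 ≤ (w + 1) ^ 2 := Nat.one_le_pow _ _ (by omega)
    have := Nat.mul_le_mul (Nat.mul_le_mul (Nat.le_succ n) (Nat.le_succ d)) h7
    nlinarith
  have a2 : n * (w * w * ((d + 1) * 2)) ≤ 2 * ((n + 1) * (d + 1) * (w + 1) ^ 2) := by
    have := Nat.mul_le_mul (Nat.mul_le_mul (Nat.le_succ n) (le_refl (d + 1)))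
      (Nat.pow_le_pow_left (Nat.le_succ w) 2)
    nlinarith
  have a3 : n * (w * (w * 2)) ≤ 2 * ((n + 1) * (d + 1) * (w + 1) ^ 2) := by
    have := Nat.mul_le_mul (Nat.mul_le_mul (Nat.le_succ n) (show 1 ≤ d + 1 by omega))
      (Nat.pow_le_pow_left (Nat.le_succ w) 2)
    nlinarith
  have a4 : w * 2 ≤ 2 * ((n + 1) * (d + 1) * (w + 1) ^ 2) := by
    have h7 : w ≤ (w + 1) ^ 2 := by nlinarith
    have := Nat.mul_le_mul (Nat.mul_le_mul (show 1 ≤ n + 1 by omega) (show 1 ≤ d + 1 by omega)) h7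
    nlinarith
  calc n * (d + (w * w * ((d + 1) * 2) + w * (w * 2))) + w * 2
      = n * d + n * (w * w * ((d + 1) * 2)) + n * (w * (w * 2)) + w * 2 := by ring
    _ ≤ 8 * ((n + 1) * (d + 1) * (w + 1) ^ 2) := by omega
    _ = 8 * (n + 1) * (d + 1) * (w + 1) ^ 2 := by ring

end Pool.Agent.helper92.VC
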